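import Mathlib

namespace Pool.Agent.Lib.MP_1e45a6_gt

open Set

universe u v w

/-- recursion with bookkeeping -/
noncomputable def bookSeq {S : Type u} {A : Type v} {T : Type w} (s0 : S)
    (step : S → T → S × Set A) (enum : Set A → ℕ → T) : ℕ → S × Set A
  | 0 => (s0, ∅)
  | k + 1 =>
    ((step (bookSeq s0 step enum k).1
        (enum (bookSeq s0 step enum (Nat.unpair k).1).2 (Nat.unpair k).2)).1,
      (bookSeq s0 step enum k).2 ∪ (step (bookSeq s0 step enum k).1
        (enum (bookSeq s0 step enum (Nat.unpair k).1).2 (Nat.unpair k).2)).2)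
decreasing_by
  all_goals first
    | exact Nat.lt_succ_self _
    | exact Nat.lt_succ_of_le (Nat.unpair_left_le _)

theorem bookkeeping {S : Type u} {A : Type v} {T : Type w} [Nonempty T] (s0 : S)
    (step : S → T → S × Set A) (supp : T → Finset A)
    (hsupp : ∀ Λ : Set A, Λ.Countable → {t | (supp t : Set A) ⊆ Λ}.Countable)
    (hstep : ∀ s t, (step s t).2.Countable) :
    ∃ (s : ℕ → S) (τ : ℕ → T), s 0 = s0 ∧ (∀ k, s (k + 1) = (step (s k) (τ k)).1) ∧
      ∀ t, ((supp t : Set A) ⊆ ⋃ k, (step (s k) (τ k)).2) → ∃ k, τ k = t := by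
  classical
  have henum : ∀ Λ : Set A, ∃ e : ℕ → T, Λ.Countable → {t | (supp t : Set A) ⊆ Λ} ⊆ range e := by
    intro Λ
    by_cases h : Λ.Countable
    · obtain ⟨e, he⟩ := (Set.countable_iff_exists_subset_range).1 (hsupp Λ h)
      exact ⟨e, fun _ => he⟩
    · exact ⟨fun _ => Classical.arbitrary T, fun h' => absurd h' h⟩
  choose enum henum using henum
  set q := bookSeq s0 step enum with hq
  let τ : ℕ → T := fun k => enum (q (Nat.unpair k).1).2 (Nat.unpair k).2
  have h0 : q 0 = (s0, ∅) := by rw [hq, bookSeq]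
  have hs : ∀ k, q (k + 1) = ((step (q k).1 (τ k)).1, (q k).2 ∪ (step (q k).1 (τ k)).2) := by
    intro k
    rw [hq, bookSeq]
  have hc : ∀ k, (q k).2.Countable := by
    intro k
    induction k with
    | zero => simp [h0]
    | succ k ih => rw [hs]; exact ih.union (hstep _ _)
  have hmono : Monotone fun k => (q k).2 := by
    apply monotone_nat_of_le_succ
    intro k
    rw [hs]; exact subset_union_left
  refine ⟨fun k => (q k).1, τ, by simp [h0], fun k => by simp only [hs], ?_⟩
  intro t ht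
  have h1 : ∀ a ∈ supp t, ∃ k, a ∈ (q k).2 := by
    intro a ha
    obtain ⟨k, hk⟩ := mem_iUnion.1 (ht ha)
    exact ⟨k + 1, by rw [hs]; exact Or.inr hk⟩
  choose! g hg using h1
  have h2 : (supp t : Set A) ⊆ (q ((supp t).sup g)).2 := by
    intro a ha
    exact hmono (Finset.le_sup (f := g) ha) (hg a ha)
  obtain ⟨j, hj⟩ := henum _ (hc _) h2
  exact ⟨Nat.pair ((supp t).sup g) j, by simp [τ, hj]⟩

end Pool.Agent.Lib.MP_1e45a6_gt
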