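import Mathlib

namespace Pool.Agent.Lib.MP_1e45a6_gt

universe u

/-- The basic clopen set `[F * b]` of the Cantor cube `2^ι`: for an `n`-element set `F` of
coordinates and `b ∈ 2^n`, the points `x` whose value at the `i`-th element of `F`
(in increasing order) is `b i`. -/
def cyl {ι : Type u} [LinearOrder ι] {n : ℕ} (F : {F : Finset ι // F.card = n})
    (b : Fin n → Bool) : Set (ι → Bool) :=
  {x | ∀ i : Fin n, x (F.1.orderEmbOfFin F.2 i) = b i}

/-- `X ⊆ 2^ι` is HFC: for every `n`, every `b ∈ 2^n` and every infinite family of pairwise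
disjoint `n`-element sets of coordinates, the sets `[F * b]` cover all but countably many
points of `X`. -/
def IsHFC {ι : Type u} [LinearOrder ι] (X : Set (ι → Bool)) : Prop :=
  ∀ (n : ℕ) (b : Fin n → Bool) (𝓕 : Set {F : Finset ι // F.card = n}),
    𝓕.Infinite → 𝓕.Pairwise (fun F G => Disjoint F.1 G.1) →
      (X \ ⋃ F ∈ 𝓕, cyl F b).Countable

/-- A space `Y` is strongly D: every neighbourhood assignment `U` has a kernel `D` that is
locally finite in the topology generated by the sets `U x`. -/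
def IsStronglyD (Y : Type u) [TopologicalSpace Y] : Prop :=
  ∀ U : Y → Set Y, (∀ x, IsOpen (U x)) → (∀ x, x ∈ U x) →
    ∃ D : Set Y, (⋃ x ∈ D, U x) = Set.univ ∧
      ∀ z : Y, ∃ F : Finset Y, z ∈ (⋂ x ∈ F, U x) ∧ ((⋂ x ∈ F, U x) ∩ D).Finite

end Pool.Agent.Lib.MP_1e45a6_gt
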