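import Mathlib
import Pool.Agent.Lib.MP_1e45a6_gt.Defs
import Pool.Agent.Lib.MP_1e45a6_gt.Book

namespace Pool.Agent.Lib.MP_1e45a6_gt

open Set

universe u

variable {ι : Type u} [LinearOrder ι] {X : Set (ι → Bool)}

/-- a type: root coordinates, the root coordinates with value true, and a pattern -/
abbrev Ty (ι : Type u) := Finset ι × Finset ι × (Σ n : ℕ, Fin n → Bool)

/-- points of `Y` of type `t` whose free part avoids `G` -/
def TT (S : X → Finset ι) (Y : Set X) (t : Ty ι) (G : Finset ι) : Set X :=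
  {y | y ∈ Y ∧ t.1 ⊆ S y ∧ (∀ i ∈ t.1, (y.1 i = true ↔ i ∈ t.2.1)) ∧
    (∃ h : (S y \ t.1).card = t.2.2.1, y.1 ∈ cyl ⟨S y \ t.1, h⟩ t.2.2.2) ∧
    Disjoint (S y \ t.1) G}

theorem TT_anti (S : X → Finset ι) (Y : Set X) (t : Ty ι) {G G' : Finset ι} (h : G ⊆ G') :
    TT S Y t G' ⊆ TT S Y t G := by
  rintro y ⟨h1, h2, h3, h4, h5⟩
  exact ⟨h1, h2, h3, h4, h5.mono_right h⟩

theorem agree_of_cyl {n : ℕ} {F : Finset ι} (h : F.card = n) {b : Fin n → Bool}
    {x y : ι → Bool} (hx : x ∈ cyl ⟨F, h⟩ b) (hy : y ∈ cyl ⟨F, h⟩ b) :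
    ∀ i ∈ F, x i = y i := by
  intro i hi
  have : i ∈ range (F.orderEmbOfFin h) := by
    rw [Finset.range_orderEmbOfFin]; exact hi
  obtain ⟨j, rfl⟩ := this
  exact (hx j).trans (hy j).symm

theorem step_lemma (hX : IsHFC X) (U : X → Set X) (S : X → Finset ι)
    (hS : ∀ y z : X, (∀ i ∈ S y, z.1 i = y.1 i) → z ∈ U y)
    (Y : Set X) (t : Ty ι) (B : Set X) (hB : B.Countable) (hBY : B ⊆ Y) :
    ∃ (D : Set X) (G : Finset ι) (C : Set X), D ⊆ Y ∧ D.Countable ∧ C.Countable ∧
      TT S Y t G ⊆ (⋃ x ∈ D, U x) ∪ C ∧ ∀ e ∈ B, (U e ∩ D).Finite := by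
  classical
  by_cases htrap : ∃ (E : Finset X) (G : Finset ι), (E : Set X) ⊆ Y ∧ TT S Y t G ⊆ ⋃ x ∈ E, U x
  · obtain ⟨E, G, hE, hT⟩ := htrap
    refine ⟨E, G, ∅, hE, E.countable_toSet, countable_empty, ?_, fun e _ =>
      E.finite_toSet.subset inter_subset_right⟩
    simpa using hT
  have hfree : ∀ (E : Finset X) (G : Finset ι), (E : Set X) ⊆ Y →
      ∃ y ∈ TT S Y t G, y ∉ ⋃ x ∈ E, U x := by
    intro E G hE
    by_contra hcon
    push Not at hcon
    exact htrap ⟨E, G, hE, hcon⟩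
  obtain ⟨R, R1, n, b⟩ := t
  -- key: a point agreeing with the root and in the cylinder of y lies in U y
  have hkey : ∀ (G G' : Finset ι) (y z : X), y ∈ TT S Y ⟨R, R1, n, b⟩ G →
      z ∈ TT S Y ⟨R, R1, n, b⟩ G' →
      (∀ i ∈ S y \ R, z.1 i = y.1 i) → z ∈ U y := by
    intro G G' y z hy hz h
    apply hS
    intro i hi
    by_cases hiR : i ∈ R
    · have h1 := hy.2.2.1 i hiR
      have h2 := hz.2.2.1 i hiR
      simp only at h1 h2
      cases hzi : z.1 i <;> cases hyi : y.1 i <;> simp_all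
    · exact h i (Finset.mem_sdiff.2 ⟨hi, hiR⟩)
  have hn : 0 < n := by
    rcases Nat.eq_zero_or_pos n with rfl | hn
    · exfalso
      obtain ⟨y, hy, -⟩ := hfree ∅ ∅ (by simp)
      obtain ⟨z, hz, hz'⟩ := hfree {y} ∅ (by simpa using hy.1)
      apply hz'
      simp only [Finset.mem_singleton, iUnion_iUnion_eq_left]
      apply hkey ∅ ∅ y z hy hz
      obtain ⟨h, -⟩ := hy.2.2.2.1
      simp only [Finset.card_eq_zero] at h
      rw [h]; simp
    · exact hn
  obtain ⟨f, hf⟩ := Set.countable_iff_exists_injOn.1 hB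
  have hfin : ∀ i : ℕ, {e ∈ B | f e ≤ i}.Finite := by
    intro i
    apply Set.Finite.of_finite_image (f := f)
    · exact (Set.finite_Iic i).subset (by rintro _ ⟨e, he, rfl⟩; exact he.2)
    · exact hf.mono (fun e he => he.1)
  have hfree' : ∀ (i : ℕ) (G : Finset ι), ∃ y ∈ TT S Y ⟨R, R1, n, b⟩ G,
      ∀ e ∈ B, f e ≤ i → y ∉ U e := by
    intro i G
    obtain ⟨y, hy, hy'⟩ := hfree (hfin i).toFinset G (by
      intro e he
      simp only [Finite.coe_toFinset] at he
      exact hBY he.1)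
    refine ⟨y, hy, fun e he hi hU => hy' ?_⟩
    exact mem_biUnion (x := e) (by simpa using ⟨he, hi⟩) hU
  choose g hg hg' using hfree'
  let Gs : ℕ → Finset ι := fun i => Nat.rec ∅ (fun i G => G ∪ (S (g i G) \ R)) i
  have hGs : ∀ i, Gs (i + 1) = Gs i ∪ (S (g i (Gs i)) \ R) := fun i => rfl
  have hGmono : Monotone Gs := by
    apply monotone_nat_of_le_succ
    intro i; rw [hGs]; exact Finset.subset_union_left
  let y : ℕ → X := fun i => g i (Gs i)
  have hy : ∀ i, y i ∈ TT S Y ⟨R, R1, n, b⟩ (Gs i) := fun i => hg i (Gs i)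
  have hcard : ∀ i, (S (y i) \ R).card = n := fun i => (hy i).2.2.2.1.1
  let F : ℕ → {F : Finset ι // F.card = n} := fun i => ⟨S (y i) \ R, hcard i⟩
  have hFcyl : ∀ i, (y i).1 ∈ cyl (F i) b := fun i => (hy i).2.2.2.1.2
  have hlt : ∀ i j, i < j → Disjoint (F i).1 (F j).1 := by
    intro i j hij
    have h1 : (F i).1 ⊆ Gs j := by
      refine subset_trans ?_ (hGmono (Nat.succ_le_of_lt hij))
      rw [Nat.succ_eq_add_one, hGs]; exact Finset.subset_union_right
    exact ((hy j).2.2.2.2.mono_right h1).symm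
  have hdisj : ∀ i j, i ≠ j → Disjoint (F i).1 (F j).1 := by
    intro i j hij
    rcases lt_or_gt_of_ne hij with h | h
    · exact hlt i j h
    · exact (hlt j i h).symm
  have hinj : Function.Injective F := by
    intro i j hij
    by_contra hne
    have h1 := hdisj i j hne
    rw [hij, disjoint_self] at h1
    have h2 := (F j).2
    rw [h1] at h2
    simp at h2
    omega
  have hC := hX n b (range F) (infinite_range_of_injective hinj) (by
    rintro _ ⟨i, rfl⟩ _ ⟨j, rfl⟩ hne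
    exact hdisj i j (fun h => hne (by rw [h])))
  refine ⟨range y, ∅, Subtype.val ⁻¹' (X \ ⋃ F' ∈ range F, cyl F' b), ?_, countable_range _,
    hC.preimage Subtype.val_injective, ?_, ?_⟩
  · rintro _ ⟨i, rfl⟩; exact (hy i).1
  · intro z hz
    by_cases hzc : z.1 ∈ ⋃ F' ∈ range F, cyl F' b
    · left
      simp only [mem_iUnion, exists_prop] at hzc
      obtain ⟨_, ⟨i, rfl⟩, hi⟩ := hzc
      refine mem_biUnion (mem_range_self i) ?_
      exact hkey _ _ _ _ (hy i) hz (agree_of_cyl (hcard i) hi (hFcyl i))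
    · right; exact ⟨z.2, hzc⟩
  · intro e he
    refine ((Set.finite_Iio (f e)).image y).subset ?_
    rintro _ ⟨hU, i, rfl⟩
    refine ⟨i, ?_, rfl⟩
    by_contra hi
    exact hg' i (Gs i) e he (not_lt.1 hi) hU

omit [LinearOrder ι] in
theorem countable_finsets {Λ : Set ι} (h : Λ.Countable) :
    {R : Finset ι | (R : Set ι) ⊆ Λ}.Countable := by
  have h1 := Set.countable_setOf_finite_subset h
  refine (h1.preimage (f := fun R : Finset ι => (R : Set ι)) Finset.coe_injective).mono ?_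
  intro R hR
  exact ⟨R.finite_toSet, hR⟩

theorem countable_types {Λ : Set ι} (h : Λ.Countable) :
    {t : Ty ι | ((t.1 ∪ t.2.1 : Finset ι) : Set ι) ⊆ Λ}.Countable := by
  have h1 := countable_finsets h
  refine (h1.prod (h1.prod (countable_univ (α := Σ n : ℕ, Fin n → Bool)))).mono ?_
  intro t ht
  simp only [mem_setOf_eq, Finset.coe_union, union_subset_iff] at ht
  exact ⟨ht.1, ht.2, trivial⟩

theorem exists_type (S : X → Finset ι) (Λ : Set ι) (z : X) :
    ∃ t : Ty ι, ((t.1 ∪ t.2.1 : Finset ι) : Set ι) ⊆ Λ ∧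
      ∀ (Y : Set X) (G : Finset ι), z ∈ Y → (G : Set ι) ⊆ Λ → z ∈ TT S Y t G := by
  classical
  let R : Finset ι := (S z).filter (· ∈ Λ)
  let R1 : Finset ι := R.filter (fun i => z.1 i = true)
  refine ⟨⟨R, R1, (S z \ R).card, fun i => z.1 ((S z \ R).orderEmbOfFin rfl i)⟩, ?_, ?_⟩
  · intro i hi
    simp only [Finset.coe_union, mem_union, Finset.mem_coe, R, R1, Finset.mem_filter] at hi
    tauto
  · intro Y G hz hG
    refine ⟨hz, Finset.filter_subset _ _, ?_, ⟨rfl, fun i => rfl⟩, ?_⟩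
    · intro i hi
      simp only [R1, Finset.mem_filter]
      tauto
    · rw [Finset.disjoint_left]
      intro i hi hiG
      simp only [R, Finset.mem_sdiff, Finset.mem_filter] at hi
      exact hi.2 ⟨hi.1, hG hiG⟩

instance : Nonempty (Ty ι) := ⟨⟨∅, ∅, 0, fun _ => true⟩⟩

/-- hereditary Lindelof property, for neighbourhood assignments -/
theorem countable_kernel (hX : IsHFC X) (U : X → Set X) (S : X → Finset ι)
    (hU : ∀ x, x ∈ U x)
    (hS : ∀ y z : X, (∀ i ∈ S y, z.1 i = y.1 i) → z ∈ U y) (Y : Set X) :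
    ∃ B : Set X, B ⊆ Y ∧ B.Countable ∧ Y ⊆ ⋃ x ∈ B, U x := by
  classical
  have h := fun t => step_lemma hX U S hS Y t ∅ countable_empty (empty_subset _)
  choose D G C hDY hDc hCc hT _ using h
  obtain ⟨s, τ, -, -, hτ⟩ := bookkeeping (S := Unit) (A := ι) (T := Ty ι) ()
    (fun _ t => ((), (G t : Set ι))) (fun t => t.1 ∪ t.2.1)
    (fun Λ hΛ => countable_types hΛ) (fun _ t => (G t).countable_toSet)
  refine ⟨(⋃ k, D (τ k)) ∪ ((⋃ k, C (τ k)) ∩ Y), ?_, ?_, ?_⟩
  · exact union_subset (iUnion_subset fun k => hDY _) inter_subset_right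
  · exact (countable_iUnion fun k => hDc _).union
      ((countable_iUnion fun k => hCc _).mono inter_subset_left)
  · intro z hz
    obtain ⟨t, ht, ht'⟩ := exists_type S (⋃ k, (G (τ k) : Set ι)) z
    obtain ⟨k, hk⟩ := hτ t ht
    have hzT := ht' Y (G t) hz (by rw [← hk]; exact subset_iUnion (fun k => (G (τ k) : Set ι)) k)
    rcases hT t hzT with h1 | h1
    · simp only [mem_iUnion, exists_prop] at h1
      obtain ⟨d, hd, hzd⟩ := h1
      exact mem_biUnion (Or.inl (mem_iUnion.2 ⟨k, by rw [hk]; exact hd⟩)) hzd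
    · exact mem_biUnion (Or.inr ⟨mem_iUnion.2 ⟨k, by rw [hk]; exact h1⟩, hz⟩) (hU z)

theorem step_lemma' (hX : IsHFC X) (U : X → Set X) (S : X → Finset ι) (hU : ∀ x, x ∈ U x)
    (hS : ∀ y z : X, (∀ i ∈ S y, z.1 i = y.1 i) → z ∈ U y)
    (Y : Set X) (t : Ty ι) :
    ∃ (D : Set X) (G : Finset ι) (C : Set X), D ⊆ Y ∧ C.Countable ∧
      TT S Y t G ⊆ (⋃ x ∈ D, U x) ∪ C ∧ ∀ z ∈ Y, ∃ e, z ∈ U e ∧ (U e ∩ D).Finite := by
  obtain ⟨B, hBY, hBc, hB⟩ := countable_kernel hX U S hU hS Y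
  obtain ⟨D, G, C, h1, -, h3, h4, h5⟩ := step_lemma hX U S hS Y t B hBc hBY
  refine ⟨D, G, C, h1, h3, h4, fun z hz => ?_⟩
  have := hB hz
  simp only [mem_iUnion, exists_prop] at this
  obtain ⟨e, he, hze⟩ := this
  exact ⟨e, hze, h5 e he⟩

theorem exists_support (U : X → Set X) (hO : ∀ x, IsOpen (U x)) (hU : ∀ x, x ∈ U x) (y : X) :
    ∃ S : Finset ι, ∀ z : X, (∀ i ∈ S, z.1 i = y.1 i) → z ∈ U y := by
  obtain ⟨V, hV, hVU⟩ := isOpen_induced_iff.1 (hO y)
  have hy : y.1 ∈ V := by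
    have := hU y
    rw [← hVU] at this
    exact this
  obtain ⟨I, u, hu, hI⟩ := isOpen_pi_iff.1 hV y.1 hy
  refine ⟨I, fun z hz => ?_⟩
  rw [← hVU]
  apply hI
  intro i hi
  rw [hz i hi]
  exact (hu i hi).2

theorem main (hX : IsHFC X) : IsStronglyD X := by
  classical
  intro U hO hU
  choose S hS using exists_support U hO hU
  choose D G C hDY hCc hT hLF using step_lemma' hX U S hU hS
  let DD : Set X → Ty ι ⊕ X → Set X := fun Y τ =>
    match τ with
    | Sum.inl t => D Y t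
    | Sum.inr z => {z} ∩ Y
  let NN : Set X → Ty ι ⊕ X → Set (ι ⊕ X) := fun Y τ =>
    match τ with
    | Sum.inl t => Sum.inl '' (G Y t : Set ι) ∪ Sum.inr '' C Y t
    | Sum.inr _ => ∅
  let supp : Ty ι ⊕ X → Finset (ι ⊕ X) := fun τ =>
    match τ with
    | Sum.inl t => (t.1 ∪ t.2.1).image Sum.inl
    | Sum.inr z => {Sum.inr z}
  have hDDY : ∀ Y τ, DD Y τ ⊆ Y := by
    rintro Y (t | z)
    · exact hDY Y t
    · exact inter_subset_right
  have hDDLF : ∀ Y τ, ∀ z ∈ Y, ∃ e, z ∈ U e ∧ (U e ∩ DD Y τ).Finite := by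
    rintro Y (t | w) z hz
    · exact hLF Y t z hz
    · exact ⟨z, hU z, (finite_singleton w).subset (fun x hx => hx.2.1)⟩
  obtain ⟨s, τ, hs0, hs, hτ⟩ := bookkeeping (S := Set X) (A := ι ⊕ X) (T := Ty ι ⊕ X) univ
    (fun Y τ => (Y \ ⋃ x ∈ DD Y τ, U x, NN Y τ)) supp
    (by
      intro Λ hΛ
      have h1 : (Sum.inl ⁻¹' Λ : Set ι).Countable := hΛ.preimage Sum.inl_injective
      have h2 : (Sum.inr ⁻¹' Λ : Set X).Countable := hΛ.preimage Sum.inr_injective
      refine (((countable_types h1).image Sum.inl).union (h2.image Sum.inr)).mono ?_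
      rintro (t | z) h
      · left
        refine ⟨t, ?_, rfl⟩
        intro i hi
        apply h
        simp only [supp, Finset.coe_image]
        exact mem_image_of_mem _ hi
      · right
        refine ⟨z, ?_, rfl⟩
        apply h
        simp [supp])
    (by
      rintro Y (t | z)
      · exact ((G Y t).countable_toSet.image _).union ((hCc Y t).image _)
      · exact countable_empty)
  simp only at hs hτ
  have hanti : Antitone s := by
    apply antitone_nat_of_succ_le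
    intro k; rw [hs]; exact diff_subset
  -- a point handled as a task leaves
  have hpt : ∀ (z : X) (k : ℕ), τ k = Sum.inr z → z ∉ s (k + 1) := by
    intro z k hk hz
    rw [hs, hk] at hz
    exact hz.2 (mem_biUnion (x := z) ⟨rfl, hz.1⟩ (hU z))
  have hleave : ∀ z : X, ∃ k, z ∉ s k := by
    intro z
    obtain ⟨t, ht, ht'⟩ := exists_type S (Sum.inl ⁻¹' (⋃ k, NN (s k) (τ k))) z
    obtain ⟨k, hk⟩ := hτ (Sum.inl t) (by
      simp only [supp, Finset.coe_image]
      rintro _ ⟨i, hi, rfl⟩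
      exact ht hi)
    by_cases hz : z ∈ s k
    · have hzT := ht' (s k) (G (s k) t) hz (by
        intro i hi
        refine mem_iUnion.2 ⟨k, ?_⟩
        rw [hk]
        exact Or.inl (mem_image_of_mem _ hi))
      rcases hT (s k) t hzT with h1 | h1
      · refine ⟨k + 1, fun h => ?_⟩
        rw [hs, hk] at h
        exact h.2 h1
      · obtain ⟨k', hk'⟩ := hτ (Sum.inr z) (by
          simp only [supp, Finset.coe_singleton, singleton_subset_iff]
          refine mem_iUnion.2 ⟨k, ?_⟩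
          rw [hk]
          exact Or.inr (mem_image_of_mem _ h1))
        exact ⟨k' + 1, hpt z k' hk'⟩
    · exact ⟨k, hz⟩
  have hstage : ∀ z : X, ∃ k, ∃ d ∈ DD (s k) (τ k), z ∈ s k ∧ z ∈ U d := by
    intro z
    have h0 : z ∈ s 0 := by rw [hs0]; trivial
    have hex := hleave z
    have hpos : Nat.find hex ≠ 0 := by
      intro h
      have := Nat.find_spec hex
      rw [h] at this
      exact this h0
    obtain ⟨k, hk⟩ := Nat.exists_eq_succ_of_ne_zero hpos
    have h1 : z ∉ s (k + 1) := by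
      have := Nat.find_spec hex
      rwa [hk] at this
    have h2 : z ∈ s k := by
      by_contra h
      have := Nat.find_min' hex h
      omega
    rw [hs] at h1
    have h3 : z ∈ ⋃ x ∈ DD (s k) (τ k), U x := by
      by_contra h
      exact h1 ⟨h2, h⟩
    simp only [mem_iUnion, exists_prop] at h3
    obtain ⟨d, hd, hzd⟩ := h3
    exact ⟨k, d, hd, h2, hzd⟩
  refine ⟨⋃ k, DD (s k) (τ k), ?_, ?_⟩
  · rw [eq_univ_iff_forall]
    intro z
    obtain ⟨k, d, hd, -, hzd⟩ := hstage z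
    exact mem_biUnion (mem_iUnion.2 ⟨k, hd⟩) hzd
  · intro z
    obtain ⟨k, d, hd, hzk, hzd⟩ := hstage z
    have he : ∀ j, ∃ e, j ≤ k → z ∈ U e ∧ (U e ∩ DD (s j) (τ j)).Finite := by
      intro j
      by_cases hj : j ≤ k
      · obtain ⟨e, he⟩ := hDDLF (s j) (τ j) z (hanti hj hzk)
        exact ⟨e, fun _ => he⟩
      · exact ⟨z, fun h => absurd h hj⟩
    choose e he using he
    refine ⟨insert d ((Finset.range (k + 1)).image e), ?_, ?_⟩
    · simp only [mem_iInter, Finset.mem_insert, Finset.mem_image, Finset.mem_range]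
      rintro x (rfl | ⟨j, hj, rfl⟩)
      · exact hzd
      · exact (he j (by omega)).1
    · refine ((Set.finite_Iic k).biUnion (t := fun j => U (e j) ∩ DD (s j) (τ j))
        (fun j hj => (he j hj).2)).subset ?_
      rintro x ⟨hx1, hx2⟩
      simp only [mem_iInter, Finset.mem_insert, Finset.mem_image, Finset.mem_range] at hx1
      obtain ⟨j, hj⟩ := mem_iUnion.1 hx2
      by_cases hjk : j ≤ k
      · exact mem_biUnion (x := j) hjk ⟨hx1 _ (Or.inr ⟨j, by omega, rfl⟩), hj⟩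
      · exfalso
        have h1 : x ∈ s (k + 1) := hanti (by omega : k + 1 ≤ j) (hDDY _ _ hj)
        rw [hs] at h1
        exact h1.2 (mem_biUnion hd (hx1 d (Or.inl rfl)))

end Pool.Agent.Lib.MP_1e45a6_gt
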